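import Pool.Agent.V11198.SixteenX

/-!
# MP_0735e9_co: snarks with a circuit off which the graph has small components

Let `G` be a cyclically 4-edge-connected cubic graph and `C` a circuit of `G` such that every
component of `G - V(C)` has at most sixteen vertices.  By `Pool.Agent.V11198.Six.five_cubic`, `C` is
one of five even subgraphs which cover every edge exactly twice.  The other four still cover every
edge and have total length `2 |E(G)| - |C| = 4/3 |E(G)| + k`, where `k` is the number of the vertices
that `C` misses.  So the bound `(4/3 + o(1)) |E(G)|` holds for the snarks which have such a circuit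
with `k = o(|E(G)|)`.
-/

set_option autoImplicit false

open Finset

namespace Pool.Agent.Results.MP_0735e9_co.LongCircuitSnarks

open Pool.Agent.Helper347.Sab

variable {V E : Type} [Fintype V] [DecidableEq V] [Fintype E] [DecidableEq E]

/-- The vertex `v` is not a vertex of the circuit `C`. -/
def Off (G : MGraph V E) (C : Finset E) (v : V) : Prop := dg G C v = 0

/-- There is a path from `a` to `b` in the graph `G - V(C)` (all of its vertices are off `C`). -/
def PathOff (G : MGraph V E) (C : Finset E) (a b : V) : Prop :=
  Relation.ReflTransGen (fun x y => Off G C x ∧ Off G C y ∧ ∃ e, G.ends e = s(x, y)) a b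

/-- The edges that leave the vertex set `X`. -/
def leaving (G : MGraph V E) (X : Finset V) : Set E := {e | ∃ a ∈ X, ∃ b ∉ X, G.ends e = s(a, b)}

/-- `G` is cyclically 4-edge-connected: if there is a circuit inside `X` and a circuit inside the
complement of `X`, then at least four edges leave `X`. -/
def CyclicallyFour (G : MGraph V E) : Prop :=
  ∀ X : Finset V, (∃ D, IsCircuit G D ∧ ∀ e ∈ D, ∀ v ∈ G.ends e, v ∈ X) →
    (∃ D, IsCircuit G D ∧ ∀ e ∈ D, ∀ v ∈ G.ends e, v ∉ X) → 4 ≤ (leaving G X).ncard

/-- `F` is a cycle cover: a multiset of circuits such that every edge is in a member. -/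
def IsCycleCover (G : MGraph V E) (F : Multiset (Finset E)) : Prop :=
  (∀ X ∈ F, IsCircuit G X) ∧ ∀ e, ∃ X ∈ F, e ∈ X

/-- the length of the cover `F` -/
def length (F : Multiset (Finset E)) : ℕ := (F.map Finset.card).sum

/-- Let `G` be a cyclically 4-edge-connected cubic graph every edge of which lies in a circuit (for
instance, a snark), and `C` a circuit of `G` such that every component of `G - V(C)` has at most
sixteen vertices (for instance, `C` misses at most sixteen vertices). Then `G` has a cycle cover of
length `4/3 |E(G)| + k`, where `k` is the number of the vertices off `C`; it is at most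
`(4/3 + ε) |E(G)|` if `k ≤ ε |E(G)|`. -/
theorem result {V E : Type} [Fintype V] [DecidableEq V] [Fintype E] [DecidableEq E]
    (G : MGraph V E) (hG : IsCubic G) (hb : ∀ e, ∃ D, IsCircuit G D ∧ e ∈ D)
    (h4 : CyclicallyFour G) (C : Finset E) (hC : IsCircuit G C)
    (h16 : ∀ v, Off G C v → ({w | PathOff G C v w} : Set V).ncard ≤ 16) :
    ∃ F, IsCycleCover G F ∧ 3 * length F = 4 * Fintype.card E + 3 * ({v | Off G C v} : Set V).ncard ∧
      ∀ ε : ℝ, (({v | Off G C v} : Set V).ncard : ℝ) ≤ ε * Fintype.card E →
        (length F : ℝ) ≤ (4 / 3 + ε) * Fintype.card E := by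
  classical
  obtain ⟨F, h1, h2, h3⟩ := Pool.Agent.V11198.Six.cover_of_five G C
    (Pool.Agent.V11198.Six.five_cubic G hG hb C hC h16 (by
      intro v X _ hX h9 hcut
      have hcut' : (univ.filter fun e => ∃ a ∈ X, ∃ b ∉ X, G.ends e = s(a, b)).card = 3 := by
        rw [← Set.ncard_coe_finset, ← hcut]
        congr 1
        ext e
        rw [mem_coe, mem_filter]
        simp
      have hXoff : ∀ w ∈ X, Off G C w := by
        intro w hw
        rcases Relation.ReflTransGen.cases_tail (hX w hw) with h | ⟨_, _, h⟩
        · subst h; assumption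
        · exact h.2.1
      have h5 := h4 X (Pool.Agent.V11198.Six.circuit_of_three G hG X (by omega) hcut')
        ⟨C, hC, fun e he w hw hwX => by
          have h6 := hXoff w hwX
          unfold Off dg at h6
          rw [card_eq_zero, filter_eq_empty_iff] at h6
          exact h6 he hw⟩
      unfold leaving at h5
      rw [hcut] at h5
      omega))
  have h5 : 3 * length F = 4 * Fintype.card E + 3 * ({v | Off G C v} : Set V).ncard := by
    have h6 : ∑ v, dg G univ v = 2 * (univ : Finset E).card :=
      Pool.Agent.V11198.Six.sum_dg G univ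
    rw [sum_congr rfl fun v _ => hG v, sum_const, card_univ, card_univ, smul_eq_mul] at h6
    have h7 : ({v | Off G C v} : Set V) =
        ((univ.filter fun v => ¬ dg G C v ≠ 0 : Finset V) : Set V) := by
      ext v
      rw [mem_coe, mem_filter]
      unfold Off
      simp
    have h8 := Finset.card_filter_add_card_filter_not (s := (univ : Finset V))
      (fun v => dg G C v ≠ 0)
    rw [← Pool.Agent.V11198.Six.card_circuit G C hC.2.1, card_univ] at h8
    rw [h7, Set.ncard_coe_finset]
    unfold length
    omega
  refine ⟨F, ⟨h1, fun e => ?_⟩, h5, fun ε hε => ?_⟩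
  · have h6 : 0 < F.countP (fun X => e ∈ X) := by rw [h2 e]; split_ifs <;> norm_num
    obtain ⟨X, hX, he⟩ := Multiset.countP_pos.1 h6
    exact ⟨X, hX, he⟩
  · have h6 : (3 : ℝ) * length F = 4 * Fintype.card E + 3 * ({v | Off G C v} : Set V).ncard := by
      exact_mod_cast h5
    nlinarith

end Pool.Agent.Results.MP_0735e9_co.LongCircuitSnarks
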